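import Pool.Agent.Q217.Prim.Dec
import Pool.Agent.Q217.Prim.Hsc

/-!
# Primitivity of the quasivariety generated by a finite Heyting algebra is decidable

There is an algorithm, even a primitive recursive function, which decides, given the operation tables
of a finite Heyting algebra `A`, whether the quasivariety `Q(A)` is primitive, and also whether the
deductive system `⊢_A` is hereditarily structurally complete.

Definitions used in the statement.
* `Pool/Agent/Q217/Prim/Core.lean`: `QId` (quasi-identities), `QId.Holds`, `IdHolds`, `InQ A H` (the
  Heyting algebra `H` is in the quasivariety `Q(A)`: it satisfies all quasi-identities valid in `A`),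
  `Primitive A` (every subquasivariety of `Q(A)` is a relative variety of `Q(A)`).
* `Pool/Agent/Q217/Prim/Hsc.lean`: `matrixSystem A`, the deductive system `⊢_A`.
* `Pool/Agent/H877R3/HSC/Defs.lean` (starting file): the formulas `Fm`, which are also the terms
  (`1` is `0 → 0`), `DedSys` and `DedSys.HereditarilyStructurallyComplete` (deductive systems), and
  `tables e`, the operation tables of a finite Heyting algebra `A` whose elements are numbered by the
  bijection `e : A ≃ Fin n`.
* `Pool/Agent/H877R3/HSC/Core1.lean` (starting file): `RA X` (algebras with the operations
  `∧, ∨, →, 0` on the set `X`), `IsHom`, `Sep B C` (the homomorphisms from `B` to `C` separate the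
  points of `B`), `ofH A` (the Heyting algebra `A` as such an algebra).

Method. If a member of `Q(A)` satisfies the identities but not the quasi-identities of a
subquasivariety, this is seen in a subalgebra `S` of `A`, which is then a homomorphic image of an
algebra `B` of the subquasivariety with at most `n` generators, and the homomorphisms from `S` to `B`
do not separate the points of `S`. As `B` is in `Q(A)`, it has at most `n ^ (n ^ n)` elements.
-/

set_option autoImplicit false

namespace Pool.Agent.Results.MP_51e3d2_lc.Decidable

open Pool.Agent.H877R3.HSC Pool.Agent.H877R3.HSC.RA Pool.Agent.Q217.Prim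

/-- **Primitivity of `Q(A)` is decidable for finite Heyting algebras `A`.**

(1) There is a primitive recursive function (so an algorithm) which decides, given the operation
tables of a finite Heyting algebra `A`, whether the quasivariety `Q(A)` is primitive.

(2) The same function decides whether the deductive system `⊢_A` is hereditarily structurally
complete.

(3) Explicitly, if `A` has `n` elements, `Q(A)` is primitive if and only if for all algebras `B` with
at most `n ^ (n ^ n)` elements, separated by their homomorphisms to `A` (so `B` is in `Q(A)`), and
all homomorphisms `h` from `B` to `A`, the homomorphisms from the subalgebra `h(B)` of `A` to `B`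
(given here as endomorphisms `k` of `B` whose kernel contains the kernel of `h`) separate the points
of `h(B)`. -/
theorem result :
    (∃ f : List ℕ → Bool, Primrec f ∧ Computable f ∧
      ∀ (A : Type) [HeytingAlgebra A] [Finite A] (n : ℕ) (e : A ≃ Fin n),
        (f (tables e) = true ↔ Primitive A) ∧
        (f (tables e) = true ↔ (matrixSystem A).HereditarilyStructurallyComplete)) ∧
    ∀ (A : Type) [HeytingAlgebra A] (n : ℕ), Nonempty (A ≃ Fin n) →
      (Primitive A ↔
        ∀ m ≤ n ^ (n ^ n), ∀ B : RA (Fin m), Sep B (ofH A) →
          ∀ h : Fin m → A, IsHom B (ofH A) h → ∀ x y : Fin m, h x ≠ h y →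
            ∃ k : Fin m → Fin m, IsHom B B k ∧ (∀ a b, h a = h b → k a = k b) ∧ k x ≠ k y) := by
  obtain ⟨f, hf, h⟩ := exists_decision
  refine ⟨⟨f, hf, hf.to_comp, fun A _ _ n e => ⟨?_, ?_⟩⟩, ?_⟩
  · rw [h A n e, primitive_iff e]
  · rw [h A n e, hsc_iff e]
  · rintro A _ n ⟨e⟩
    exact primitive_iff e

end Pool.Agent.Results.MP_51e3d2_lc.Decidable
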